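import Pool.Agent.Helper29.BL.GoalsB
import Pool.Agent.Helper29.BL.GoalsC

namespace Pool.Agent.Helper61.BL

open Pool.Agent.Helper29.BL
open WeierstrassCurve Height Height.AdmissibleAbsValues Polynomial
open scoped Polynomial.Bivariate

lemma alg_bot {K Ω : Type} [Field K] [Field Ω] [Algebra K Ω] {x : Ω}
    (h : IsAlgebraic (⊥ : IntermediateField K Ω) x) : IsAlgebraic K x := by
  have : Algebra.IsAlgebraic K (⊥ : IntermediateField K Ω) := by
    refine ⟨fun z => ?_⟩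
    obtain ⟨r, hr⟩ := IntermediateField.mem_bot.1 z.2
    have : z = algebraMap K (⊥ : IntermediateField K Ω) r := Subtype.ext hr.symm
    rw [this]
    exact isAlgebraic_algebraMap _
  exact h.restrictScalars K

lemma BD_map {R R' : Type} [CommRing R] [CommRing R'] (f : R →+* R') {m : ℕ} {F : R[X][Y]}
    (h : BD m F) : BD m (F.map (mapRingHom f)) := by
  refine ⟨natDegree_map_le.trans h.1, fun j => ?_⟩
  rw [coeff_map, coe_mapRingHom]
  exact natDegree_map_le.trans (h.2 j)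

/-- one factor: the points `u`, `v = ι y` are in general position -/
lemma gen_pos (halg : ALG) {K : Type} [Field K] [CharZero K] [DecidableEq K] {Ω : Type} [Field Ω]
    [DecidableEq Ω] [Algebra K Ω] (W : Affine K) [W.IsElliptic] (ι : W.Point →+ (bcW Ω W).Point)
    (hι0 : ∀ P, ι P = 0 → P = 0) (hι : ∀ P, xc (ι P) = algebraMap K Ω (xc P))
    (u : (bcW Ω W).Point) (hu : Transcendental K (xc u)) (y : W.Point)
    (hy : ∀ n : ℕ, 0 < n → n • y ≠ 0) :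
    ι y ≠ 0 ∧ u + u ≠ 0 ∧ ι y + ι y ≠ 0 ∧ u + ι y ≠ 0 ∧ u - ι y ≠ 0 := by
  have h1 : ι y ≠ 0 := fun h => hy 1 one_pos (by rw [one_smul]; exact hι0 _ h)
  refine ⟨h1, ?_, ?_, ?_, ?_⟩
  · intro h
    exact hu (alg_bot ((halg K Ω ⊥ W).2 u h))
  · intro h
    apply hy 2 two_pos
    apply hι0
    rw [two_smul, map_add]
    exact h
  · intro h
    apply hu
    have : u = ι (-y) := by
      rw [map_neg]
      exact eq_neg_of_add_eq_zero_left h
    rw [this, hι]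
    exact isAlgebraic_algebraMap _
  · intro h
    apply hu
    have : u = ι y := sub_eq_zero.1 h
    rw [this, hι]
    exact isAlgebraic_algebraMap _

theorem sp1_of : T2 → TMAP → ALG → SP1 := by
  intro ht htm halg K _ _ _ W₁ W₂ _ _ m Φ hBD hirr hpos Ω _ _ _ a b hgen ι₁ ι₂ h10 h1 h20 h2 u hu
    hk y hy
  obtain ⟨-, -, hm3, -⟩ := htm
  have hka : xc u.1 = a := congrArg Prod.fst hk
  have hkb : xc u.2 = b := congrArg Prod.snd hk
  have ha : Transcendental K (xc u.1) := by rw [hka]; exact hgen.transa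
  have hb : Transcendental K (xc u.2) := by rw [hkb]; exact hgen.transb
  obtain ⟨p1, p2, p3, p4, p5⟩ := gen_pos halg W₁ ι₁ h10 h1 u.1 ha y.1 hy.1
  obtain ⟨q1, q2, q3, q4, q5⟩ := gen_pos halg W₂ ι₂ h20 h2 u.2 hb y.2 hy.2
  obtain ⟨U1, U2, hprod⟩ := ht Ω (bcW Ω W₁) (bcW Ω W₂) m (Φ.map (mapRingHom (algebraMap K Ω))) u
    (ι₁ y.1, ι₂ y.2) (BD_map _ hBD) hu ⟨p1, q1⟩ ⟨p2, q2⟩ ⟨p3, q3⟩ ⟨p4, q4⟩ ⟨p5, q5⟩
  have hev : evO (Tr W₁ W₂ m Φ (xc y.1) (xc y.2)) (a, b) =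
      TT (bcW Ω W₁) (bcW Ω W₂) m (Φ.map (mapRingHom (algebraMap K Ω))) (xc (ι₁ y.1)) (xc (ι₂ y.2))
        (xc u.1) (xc u.2) := by
    unfold evO
    rw [hm3 K Ω (algebraMap K Ω) W₁ W₂ m Φ (xc y.1) (xc y.2) a b, h1, h2, hka, hkb]
  rw [← hgen.ker, hev, hprod, mul_eq_zero, mul_eq_zero, Finset.prod_eq_zero_iff]
  have hs : ∀ s : ℤˣ × ℤˣ, ev (Φ.map (mapRingHom (algebraMap K Ω)))
      (kap (u + sg s (ι₁ y.1, ι₂ y.2))) = 0 ↔ Zu Φ ι₁ ι₂ u (sg s y) := by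
    intro s
    unfold Zu evO kap sg
    simp only [Prod.fst_add, Prod.snd_add, map_zsmul]
  constructor
  · rintro ((h | h) | ⟨s, -, h⟩)
    · exact absurd h (pow_ne_zero _ U1)
    · exact absurd h (pow_ne_zero _ U2)
    · exact ⟨s, (hs s).1 h⟩
  · rintro ⟨s, h⟩
    exact Or.inr ⟨s, Finset.mem_univ _, (hs s).2 h⟩

end Pool.Agent.Helper61.BL
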